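import Pool.Agent.Y560.TF.Stm

/-!
Project TF, EXTW and HEXT: isomorphisms of the closed segments of one-ended structures, and
extensions of automorphisms of the closed segments.
-/

set_option autoImplicit false

namespace Pool.Agent.Y574.TF

open Set
open Pool.Agent.Y560.TF
open Pool.Agent.H899R2.VP (St Adj PIso BF IsoOn idOn inv comp zipSet idOn_self BF_of_total)
open Pool.Agent.H533R2.VO (RS lift put OS Ic RIso Dich VC BlkV S_FINAL)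
open Pool.Agent.H566P (ar R2 v2 a0 a1 lt ac co mk S_ACC S_MSG)
open Pool.Agent.Y560.TG (acc msg lt_mk ac_mk co_mk R2_ext piso_iff riso_iff riso_isoOn meas_lt
  meas_ac meas_co meas_into cont_into piso_lt piso_ac piso_co piso_eq ex lt_ex ac_ex co_ex_even
  co_ex_odd piso_ex orb orb_ex Nm Off Sm Thin Few bf_trans0 bf_symm0 iso_trans0 iso_symm0
  iso_refl0)

/-- A bijective relation as an equivalence of subtypes. -/
theorem equiv_of_rel {A A' : ℕ → Prop} {r : Set (ℕ × ℕ)} (h1 : ∀ x y, (x, y) ∈ r → A x ∧ A' y)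
    (h2 : ∀ x, A x → ∃ y, (x, y) ∈ r) (h3 : ∀ y, A' y → ∃ x, (x, y) ∈ r)
    (h4 : ∀ x y x' y', (x, y) ∈ r → (x', y') ∈ r → (x = x' ↔ y = y')) :
    ∃ φ : {k // A k} ≃ {k // A' k}, ∀ a : {k // A k}, ((a : ℕ), (φ a : ℕ)) ∈ r := by
  choose f hf using h2
  choose e he using h3
  refine ⟨⟨fun a => ⟨f a a.2, (h1 _ _ (hf a a.2)).2⟩, fun a => ⟨e a a.2, (h1 _ _ (he a a.2)).1⟩,
    fun a => ?_, fun a => ?_⟩, fun a => hf a a.2⟩
  · apply Subtype.ext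
    exact (h4 _ _ _ _ (he _ _) (hf a a.2)).2 rfl
  · apply Subtype.ext
    exact (h4 _ _ _ _ (hf _ _) (he a a.2)).1 rfl

section one

variable {Γ : Type} [Group Γ] {g : ℕ → Γ} {Y : R2} {β : Ordinal.{0}} {t : Γ → ℕ → ℕ} {m w : ℕ}

theorem bg_tr (hE : S_OEB) (hg : Function.Surjective g) (hY : TR g Y)
    (hβ : Ordinal.omega0 ≤ β) (hO : OneEnd β Y) (h : TA g Y t) (a z : ℕ) (γ : Γ) :
    Bg β Y a (t γ z) ↔ Bg β Y a z := by
  obtain ⟨n, rfl⟩ := hg γ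
  exact ((hE Γ g hg Y β hY hβ hO).2.2.1 n a z _ ((h.act _ _ _).2 rfl)).symm

theorem orb_tr (hg : Function.Surjective g) (h : TA g Y t) (y z : ℕ) (γ : Γ) :
    orb Y y (t γ z) ↔ orb Y y z := by
  rw [orb_iff hg h, orb_iff hg h]
  constructor
  · rintro ⟨δ, hδ⟩
    exact ⟨γ⁻¹ * δ, by rw [h.mul, hδ, h.inv_t]⟩
  · rintro ⟨δ, rfl⟩
    exact ⟨γ * δ, h.mul _ _ _⟩

theorem lt_iff_le_ne (h : TA g Y t) {x y : ℕ} : lt Y x y ↔ le Y x y ∧ x ≠ y := by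
  constructor
  · intro h1
    refine ⟨Or.inr h1, ?_⟩
    rintro rfl
    exact h.irr _ h1
  · rintro ⟨h1 | h1, h2⟩
    · exact absurd h1 h2
    · exact h1

end one

theorem t_EXTW (hG : S_GEO) (hE : S_OEB) (hT : S_TRQ) (hF : S_FILL) (hET : S_OET) : S_EXTW := by
  intro Γ _ g hg Y Y' β Λ m m' hY hY' hβ hO hO' hbf hiso hC hC'
  have hTR := hY
  have hTR' := hY'
  obtain ⟨t, h⟩ := hY
  obtain ⟨t', h'⟩ := hY'
  obtain ⟨q, -, hq1, hq2, hq3, hq4⟩ := hiso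
  rw [piso_ex] at hq2
  obtain ⟨hq2, hq5⟩ := hq2
  have hE1 := hE Γ g hg Y β hTR hβ hO
  have hE1' := hE Γ g hg Y' β hTR' hβ hO'
  have hβ2 : β ≤ β + 2 := le_self_add
  have hβ1 : β ≤ β + 1 := le_self_add
  have hβ12 : β + 1 ≤ β + 2 := by
    gcongr
    norm_num
  have hβ23 : β + 2 < β + 3 := by
    gcongr
    norm_num
  have hω : Ordinal.omega0 ≤ β + 2 := hβ.trans hβ2
  have h3ω : (3 : Ordinal.{0}) ≤ β + 2 := le_trans (Ordinal.natCast_lt_omega0 3).le hω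
  have hqQ : ∀ a a', (a, a') ∈ q → ∀ j, (Q Y m j a ↔ Q Y' m' j a') := by
    intro a a' haa j
    have := hq5 (2 * j) _ haa
    unfold PA at this
    rwa [if_pos (by omega), if_pos (by omega), show 2 * j / 2 = j by omega] at this
  have hqL : ∀ a a', (a, a') ∈ q → ∀ j, (Lr Λ β Y j m a ↔ Lr Λ β Y' j m' a') := by
    intro a a' haa j
    have := hq5 (2 * j + 1) _ haa
    unfold PA at this
    rwa [if_neg (by omega), if_neg (by omega), show (2 * j + 1) / 2 = j by omega] at this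
  -- the orbits of `m` and `m'`
  have hO2 : ∀ c : Γ, BF (lift Y) (lift Y') univ univ (β + 2) {(t c m, t' c m'), (m, m')} := by
    intro c
    obtain ⟨n, rfl⟩ := hg c
    obtain ⟨y, -, hy⟩ := hbf.forth hβ23 (mem_univ (t (g n) m))
    have h3 : ac Y n m (t (g n) m) := (h.act _ _ _).2 rfl
    rw [piso_ac hy.piso (x' := m') (y' := y) (by simp) (by simp), h'.act] at h3
    rwa [h3]
  have hO3 : ∀ c d : Γ, ∃ p : Set (ℕ × ℕ), PIso (lift Y) (lift Y') p ∧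
      (t c m, t' c m') ∈ p ∧ (t d m, t' d m') ∈ p := by
    intro c d
    have h1 := hO2 c
    obtain ⟨k, rfl⟩ := hg d
    have h0 : (0 : Ordinal.{0}) < β + 2 := lt_of_lt_of_le (by norm_num) h3ω
    obtain ⟨z, -, hz⟩ := h1.forth h0 (mem_univ (t (g k) m))
    have h4 : ac Y k m (t (g k) m) := (h.act _ _ _).2 rfl
    rw [piso_ac hz.piso (x' := m') (y' := z) (by simp) (by simp), h'.act] at h4
    refine ⟨_, hz.piso, ?_, ?_⟩
    · simp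
    · rw [h4]; simp
  have O1 : ∀ c d : Γ, lt Y (t c m) (t d m) ↔ lt Y' (t' c m') (t' d m') := by
    intro c d
    obtain ⟨p, h1, h2, h3⟩ := hO3 c d
    exact piso_lt h1 h2 h3
  have O2 : ∀ c d : Γ, t c m = t d m ↔ t' c m' = t' d m' := by
    intro c d
    obtain ⟨p, h1, h2, h3⟩ := hO3 c d
    exact piso_eq h1 h2 h3
  have O3 : ∀ (c : Γ) n, co Y n (t c m) ↔ co Y' n (t' c m') := by
    intro c n
    obtain ⟨p, h1, h2, h3⟩ := hO3 c c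
    exact piso_co h1 h2
  -- the relation
  obtain ⟨r, hr⟩ : ∃ r : Set (ℕ × ℕ), ∀ a a', (a, a') ∈ r ↔
      ((a, a') ∈ q ∨ ∃ c : Γ, a = t c m ∧ a' = t' c m') :=
    ⟨{u | (u.1, u.2) ∈ q ∨ ∃ c : Γ, u.1 = t c m ∧ u.2 = t' c m'}, fun a a' => Iff.rfl⟩
  have hrA : ∀ a a', (a, a') ∈ r → ¬ Bg β Y m a ∧ ¬ Bg β Y' m' a' := by
    intro a a' haa
    rcases (hr a a').1 haa with h1 | ⟨c, rfl, rfl⟩
    · exact ⟨(hq1 h1).1.1, (hq1 h1).2.1⟩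
    · exact ⟨fun h2 => h2.1 ((orb_iff hg h).2 ⟨c, rfl⟩),
        fun h2 => h2.1 ((orb_iff hg h').2 ⟨c, rfl⟩)⟩
  have hrL : ∀ a a', (a, a') ∈ r → ∀ j, (Q Y m j a ↔ Q Y' m' j a') := by
    intro a a' haa j
    rcases (hr a a').1 haa with h1 | ⟨c, rfl, rfl⟩
    · exact hqQ a a' h1 j
    · exact hT.1 Y Y' _ m m' _ _ j ((hO2 c).mono h3ω) (by simp) (by simp)
  have hrLr : ∀ a a', (a, a') ∈ r → ∀ j, (Lr Λ β Y j m a ↔ Lr Λ β Y' j m' a') := by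
    intro a a' haa j
    rcases (hr a a').1 haa with h1 | ⟨c, rfl, rfl⟩
    · exact hqL a a' h1 j
    · exact (hET Y Y' β Λ hβ).2.1 _ j _ _ _ _ ((hO2 c).mono hβ12) (by simp) (by simp)
  have hrT : ∀ a a', (a, a') ∈ r → ∀ c : Γ, (t c a, t' c a') ∈ r := by
    intro a a' haa c
    rcases (hr a a').1 haa with h1 | ⟨d, rfl, rfl⟩
    · have h2 : t c a ∈ Sp β Y m :=
        ⟨by rw [bg_tr hE hg hTR hβ hO h]; exact (hq1 h1).1.1,
          by rw [orb_tr hg h]; exact (hq1 h1).1.2⟩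
      obtain ⟨y, hy⟩ := hq3 _ h2
      obtain ⟨n, rfl⟩ := hg c
      have h3 := (piso_ac hq2 (n := n) h1 hy).1 ((h.act _ _ _).2 rfl)
      rw [h'.act] at h3
      rw [hr, h3]
      exact Or.inl hy
    · rw [hr]
      exact Or.inr ⟨c * d, (h.mul _ _ _).symm, (h'.mul _ _ _).symm⟩
  have hq_ne : ∀ a a', (a, a') ∈ q → ∀ c : Γ, a ≠ t c m ∧ a' ≠ t' c m' := by
    intro a a' haa c
    refine ⟨?_, ?_⟩
    · rintro rfl
      exact (hq1 haa).1.2 ((orb_iff hg h).2 ⟨c, rfl⟩)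
    · rintro rfl
      exact (hq1 haa).2.2 ((orb_iff hg h').2 ⟨c, rfl⟩)
  have hle1 : ∀ a a', (a, a') ∈ r → ∀ c : Γ, le Y (t c m) a ↔ le Y' (t' c m') a' := by
    intro a a' haa c
    obtain ⟨k, rfl⟩ := hg c
    rw [← Q0_iff h, ← Q0_iff h']
    exact hrL a a' haa _
  have hle2 : ∀ a a', (a, a') ∈ r → ∀ c : Γ, le Y a (t c m) ↔ le Y' a' (t' c m') := by
    intro a a' haa c
    obtain ⟨k, rfl⟩ := hg c
    rw [← Q1_iff h, ← Q1_iff h']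
    exact hrL a a' haa _
  have R1 : ∀ a a' b b', (a, a') ∈ r → (b, b') ∈ r → (a = b ↔ a' = b') := by
    intro a a' b b' ha hb
    rcases (hr a a').1 ha with h1 | ⟨c, rfl, rfl⟩ <;> rcases (hr b b').1 hb with h2 | ⟨d, rfl, rfl⟩
    · exact piso_eq hq2 h1 h2
    · exact iff_of_false (hq_ne _ _ h1 d).1 (hq_ne _ _ h1 d).2
    · exact iff_of_false (hq_ne _ _ h2 c).1.symm (hq_ne _ _ h2 c).2.symm
    · exact O2 c d
  have R2 : ∀ a a' b b', (a, a') ∈ r → (b, b') ∈ r → (lt Y a b ↔ lt Y' a' b') := by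
    intro a a' b b' ha hb
    rcases (hr a a').1 ha with h1 | ⟨c, rfl, rfl⟩
    · rcases (hr b b').1 hb with h2 | ⟨d, rfl, rfl⟩
      · exact piso_lt hq2 h1 h2
      · rw [lt_iff_le_ne h, lt_iff_le_ne h']
        exact and_congr (hle2 _ _ ha d) (not_congr (R1 _ _ _ _ ha hb))
    · rw [lt_iff_le_ne h, lt_iff_le_ne h']
      exact and_congr (hle1 _ _ hb c) (not_congr (R1 _ _ _ _ ha hb))
  have R3 : ∀ n a a' b b', (a, a') ∈ r → (b, b') ∈ r → (ac Y n a b ↔ ac Y' n a' b') := by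
    intro n a a' b b' ha hb
    rw [h.act, h'.act]
    exact R1 _ _ _ _ (hrT _ _ ha _) hb
  have R4 : ∀ n a a', (a, a') ∈ r → (co Y n a ↔ co Y' n a') := by
    intro n a a' ha
    rcases (hr a a').1 ha with h1 | ⟨c, rfl, rfl⟩
    · exact piso_co hq2 h1
    · exact O3 c n
  have rt1 : ∀ x, ¬ Bg β Y m x → ∃ y, (x, y) ∈ r := by
    intro x hx
    by_cases h1 : orb Y m x
    · obtain ⟨c, rfl⟩ := (orb_iff hg h).1 h1
      exact ⟨t' c m', (hr _ _).2 (Or.inr ⟨c, rfl, rfl⟩)⟩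
    · obtain ⟨y, hy⟩ := hq3 x ⟨hx, h1⟩
      exact ⟨y, (hr _ _).2 (Or.inl hy)⟩
  have rt2 : ∀ y, ¬ Bg β Y' m' y → ∃ x, (x, y) ∈ r := by
    intro x hx
    by_cases h1 : orb Y' m' x
    · obtain ⟨c, rfl⟩ := (orb_iff hg h').1 h1
      exact ⟨t c m, (hr _ _).2 (Or.inr ⟨c, rfl, rfl⟩)⟩
    · obtain ⟨y, hy⟩ := hq4 x ⟨hx, h1⟩
      exact ⟨y, (hr _ _).2 (Or.inl hy)⟩
  -- the big classes
  obtain ⟨w, hw⟩ := hO.ex m
  obtain ⟨w', -, hb2⟩ := hbf.forth hβ23 (mem_univ w)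
  have hw' : Bg β Y' m' w' :=
    ((hET Y Y' β Λ hβ).1 _ m w m' w' (hb2.mono hβ2) (by simp) (by simp)).1 hw
  have hB : ∀ z, Bg β Y m z ↔ z ∈ Ob Y m w := fun z => hE1.2.1 m z w hw
  have hB' : ∀ z, Bg β Y' m' z ↔ z ∈ Ob Y' m' w' := fun z => hE1'.2.1 m' z w' hw'
  have hb3 : BF (lift (ex (Q Y m) Y)) (lift (lb Y' m')) (Ob Y m w) (Ob Y' m' w') (β + 2) ∅ :=
    (hT.2.2.1 Y Y' _ m m' w w' (β + 2) hω hb2 (by simp) (by simp)).subset (empty_subset _)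
  obtain ⟨V, hV1, -, ⟨ψ, -, hψ1, hψ2, hψ3, hψ4⟩, -, hV4⟩ :=
    hF Y (lb Y' m') (Ob Y m w) (Ob Y' m' w') (Q Y m) (β + 2) ((hG Γ g hg Y hTR).mod m w) hω hb3
  unfold lb at hψ2
  rw [piso_ex] at hψ2
  obtain ⟨hψ2, hψ5⟩ := hψ2
  obtain ⟨hVl, hVa, hVc⟩ := hV1
  -- the isomorphism
  obtain ⟨s, hs⟩ : ∃ s : Set (ℕ × ℕ), ∀ a a', (a, a') ∈ s ↔ ((a, a') ∈ r ∨ (a', a) ∈ ψ) :=
    ⟨{u | (u.1, u.2) ∈ r ∨ (u.2, u.1) ∈ ψ}, fun a a' => Iff.rfl⟩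
  have hrB : ∀ {a a'}, (a, a') ∈ r → a ∉ Ob Y m w ∧ a' ∉ Ob Y' m' w' := by
    intro a a' haa
    rw [← hB, ← hB']
    exact hrA a a' haa
  have hψB : ∀ {a a'}, (a', a) ∈ ψ → a ∈ Ob Y m w ∧ a' ∈ Ob Y' m' w' := by
    intro a a' haa
    exact ⟨(hψ1 haa).2, (hψ1 haa).1⟩
  have hmix : ∀ {a a' b b'}, (a, a') ∈ r → (b', b) ∈ ψ →
      ((lt V a b ↔ lt Y' a' b') ∧ (lt V b a ↔ lt Y' b' a')) := by
    intro a a' b b' ha hb
    have hb1 : Bg β Y m b := (hB b).2 (hψB hb).1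
    have hb1' : Bg β Y' m' b' := (hB' b').2 (hψB hb).2
    obtain ⟨i, hi⟩ := hC b hb1
    have hi' : ∀ k, Q Y' m' k b' ↔ Λ i k := fun k => (hψ5 k _ hb).trans (hi k)
    have e1 := hE1.2.2.2.1 Λ m a b i (hrA _ _ ha).1 hb1 hi
    have e1' := hE1'.2.2.2.1 Λ m' a' b' i (hrA _ _ ha).2 hb1' hi'
    rw [hVl a b (fun h1 => (hrB ha).1 h1.1), hVl b a (fun h1 => (hrB ha).1 h1.2), e1.1, e1.2,
      e1'.1, e1'.2]
    exact ⟨hrLr _ _ ha _, hrLr _ _ ha _⟩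
  have hmixa : ∀ {a a' b b'} (n : ℕ), (a, a') ∈ r → (b', b) ∈ ψ →
      ((ac V n a b ↔ ac Y' n a' b') ∧ (ac V n b a ↔ ac Y' n b' a')) := by
    intro a a' b b' n ha hb
    have hb1 : Bg β Y m b := (hB b).2 (hψB hb).1
    have hb1' : Bg β Y' m' b' := (hB' b').2 (hψB hb).2
    rw [hVa n a b (fun h1 => (hrB ha).1 h1.1), hVa n b a (fun h1 => (hrB ha).1 h1.2)]
    refine ⟨iff_of_false (fun h1 => ?_) (fun h1 => ?_),
      iff_of_false (fun h1 => ?_) (fun h1 => ?_)⟩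
    · exact (hrA _ _ ha).1 ((hE1.2.2.1 n m _ _ h1).2 hb1)
    · exact (hrA _ _ ha).2 ((hE1'.2.2.1 n m' _ _ h1).2 hb1')
    · exact (hrA _ _ ha).1 ((hE1.2.2.1 n m _ _ h1).1 hb1)
    · exact (hrA _ _ ha).2 ((hE1'.2.2.1 n m' _ _ h1).1 hb1')
  have hsP : PIso (lift V) (lift Y') s := by
    rw [piso_iff]
    refine ⟨?_, ?_, ?_, ?_⟩
    · rintro ⟨a, a'⟩ ha ⟨b, b'⟩ hb
      rcases (hs a a').1 ha with ha1 | ha1 <;> rcases (hs b b').1 hb with hb1 | hb1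
      · exact R1 _ _ _ _ ha1 hb1
      · refine iff_of_false ?_ ?_
        · intro e
          change a = b at e
          exact (hrB ha1).1 (e ▸ (hψB hb1).1)
        · intro e
          change a' = b' at e
          exact (hrB ha1).2 (e ▸ (hψB hb1).2)
      · refine iff_of_false ?_ ?_
        · intro e
          change a = b at e
          exact (hrB hb1).1 (e ▸ (hψB ha1).1)
        · intro e
          change a' = b' at e
          exact (hrB hb1).2 (e ▸ (hψB ha1).2)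
      · exact (piso_eq hψ2 ha1 hb1).symm
    · rintro ⟨a, a'⟩ ha ⟨b, b'⟩ hb
      rcases (hs a a').1 ha with ha1 | ha1 <;> rcases (hs b b').1 hb with hb1 | hb1
      · exact (hVl a b (fun h1 => (hrB ha1).1 h1.1)).trans (R2 _ _ _ _ ha1 hb1)
      · exact (hmix ha1 hb1).1
      · exact (hmix hb1 ha1).2
      · exact (piso_lt hψ2 ha1 hb1).symm
    · rintro n ⟨a, a'⟩ ha ⟨b, b'⟩ hb
      rcases (hs a a').1 ha with ha1 | ha1 <;> rcases (hs b b').1 hb with hb1 | hb1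
      · exact (hVa n a b (fun h1 => (hrB ha1).1 h1.1)).trans (R3 n _ _ _ _ ha1 hb1)
      · exact (hmixa n ha1 hb1).1
      · exact (hmixa n hb1 ha1).2
      · exact (piso_ac hψ2 ha1 hb1).symm
    · rintro n ⟨a, a'⟩ ha
      rcases (hs a a').1 ha with ha1 | ha1
      · exact (hVc n a (hrB ha1).1).trans (R4 n _ _ ha1)
      · exact (piso_co hψ2 ha1).symm
  have hsBF : ∀ o, BF (lift V) (lift Y') univ univ o s := by
    intro o
    refine BF_of_total (fun u _ => ⟨mem_univ _, mem_univ _⟩) hsP ?_ ?_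
    · intro x _
      by_cases hx : Bg β Y m x
      · obtain ⟨y, hy⟩ := hψ4 x ((hB x).1 hx)
        exact ⟨y, (hs _ _).2 (Or.inr hy)⟩
      · obtain ⟨y, hy⟩ := rt1 x hx
        exact ⟨y, (hs _ _).2 (Or.inl hy)⟩
    · intro y _
      by_cases hy : Bg β Y' m' y
      · obtain ⟨x, hx⟩ := hψ3 y ((hB' y).1 hy)
        exact ⟨x, (hs _ _).2 (Or.inr hx)⟩
      · obtain ⟨x, hx⟩ := rt2 y hy
        exact ⟨x, (hs _ _).2 (Or.inl hx)⟩
  have R5 : ∀ a a' b b', (a, a') ∈ r → (b, b') ∈ r → (Bg β Y a b ↔ Bg β Y' a' b') := by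
    intro a a' b b' ha hb
    exact ((hET Y V β Λ hβ).1 _ a b a b (hV4.mono hβ2) (idOn_self (hrB ha).1)
      (idOn_self (hrB hb).1)).trans
      ((hET V Y' β Λ hβ).1 _ a b a' b' (hsBF β) ((hs _ _).2 (Or.inl ha))
        ((hs _ _).2 (Or.inl hb)))
  have R6 : ∀ j a a' b b', (a, a') ∈ r → (b, b') ∈ r →
      (Lr Λ β Y j a b ↔ Lr Λ β Y' j a' b') := by
    intro j a a' b b' ha hb
    exact ((hET Y V β Λ hβ).2.1 _ j a b a b (hV4.mono hβ12) (idOn_self (hrB ha).1)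
      (idOn_self (hrB hb).1)).trans
      ((hET V Y' β Λ hβ).2.1 _ j a b a' b' (hsBF (β + 1)) ((hs _ _).2 (Or.inl ha))
        ((hs _ _).2 (Or.inl hb)))
  obtain ⟨φ, hφ⟩ := equiv_of_rel (A := fun k => ¬ Bg β Y m k) (A' := fun k => ¬ Bg β Y' m' k)
    (r := r) hrA rt1 rt2 (fun x y x' y' hx hy => R1 x y x' y' hx hy)
  exact ⟨φ, fun a b => (R2 _ _ _ _ (hφ a) (hφ b)).symm,
    fun n a b => (R3 n _ _ _ _ (hφ a) (hφ b)).symm,
    fun n a => (R4 n _ _ (hφ a)).symm,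
    fun a b => (R5 _ _ _ _ (hφ a) (hφ b)).symm,
    fun j a b => (R6 j _ _ _ _ (hφ a) (hφ b)).symm⟩

theorem t_HEXT (hE : S_OEB) : S_HEXT := by
  classical
  intro Γ _ g hg Y β Λ m hY hβ hO hC φ h1 h2 h3 h4 h5
  have hTR := hY
  obtain ⟨t, h⟩ := hY
  have hE1 := hE Γ g hg Y β hTR hβ hO
  have hm : ¬ Bg β Y m m := fun h6 => h6.1 ((orb_iff hg h).2 ⟨1, h.one m⟩)
  have hφm : (φ ⟨m, hm⟩ : ℕ) = m := h5 ⟨m, hm⟩ rfl
  obtain ⟨σ, hσ1, hσ2⟩ : ∃ σ : Equiv.Perm ℕ, (∀ a : {k // ¬ Bg β Y m k}, σ a = φ a) ∧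
      ∀ b, Bg β Y m b → σ b = b := by
    refine ⟨Equiv.Perm.ofSubtype (p := fun k => ¬ Bg β Y m k) φ, fun a => ?_, fun b hb => ?_⟩
    · exact Equiv.Perm.ofSubtype_apply_coe φ a
    · exact Equiv.Perm.ofSubtype_apply_of_not_mem φ (fun h6 => h6 hb)
  have hσA : ∀ a, ¬ Bg β Y m a → ¬ Bg β Y m (σ a) := by
    intro a ha
    rw [hσ1 ⟨a, ha⟩]
    exact (φ ⟨a, ha⟩).2
  have hLr : ∀ j a, ¬ Bg β Y m a → (Lr Λ β Y j m (σ a) ↔ Lr Λ β Y j m a) := by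
    intro j a ha
    have := h4 j ⟨m, hm⟩ ⟨a, ha⟩
    rw [hφm] at this
    rw [hσ1 ⟨a, ha⟩]
    exact this
  have hmix : ∀ a b, ¬ Bg β Y m a → Bg β Y m b →
      ((lt Y (σ a) b ↔ lt Y a b) ∧ (lt Y b (σ a) ↔ lt Y b a)) := by
    intro a b ha hb
    obtain ⟨i, hi⟩ := hC b hb
    have e1 := hE1.2.2.2.1 Λ m a b i ha hb hi
    have e2 := hE1.2.2.2.1 Λ m (σ a) b i (hσA a ha) hb hi
    rw [e1.1, e1.2, e2.1, e2.2]
    exact ⟨hLr _ a ha, hLr _ a ha⟩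
  have hmixa : ∀ n a b, ¬ Bg β Y m a → Bg β Y m b → ¬ ac Y n a b ∧ ¬ ac Y n b a := by
    intro n a b ha hb
    exact ⟨fun h6 => ha ((hE1.2.2.1 n m _ _ h6).2 hb), fun h6 => ha ((hE1.2.2.1 n m _ _ h6).1 hb)⟩
  refine ⟨σ, ?_, ?_, ?_, hσ1⟩
  · intro x y
    by_cases hx : Bg β Y m x <;> by_cases hy : Bg β Y m y
    · rw [hσ2 x hx, hσ2 y hy]
    · rw [hσ2 x hx]
      exact (hmix y x hy hx).2
    · rw [hσ2 y hy]
      exact (hmix x y hx hy).1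
    · rw [hσ1 ⟨x, hx⟩, hσ1 ⟨y, hy⟩]
      exact h1 ⟨x, hx⟩ ⟨y, hy⟩
  · intro n x y
    by_cases hx : Bg β Y m x <;> by_cases hy : Bg β Y m y
    · rw [hσ2 x hx, hσ2 y hy]
    · rw [hσ2 x hx]
      exact iff_of_false (hmixa n _ _ (hσA y hy) hx).2 (hmixa n _ _ hy hx).2
    · rw [hσ2 y hy]
      exact iff_of_false (hmixa n _ _ (hσA x hx) hy).1 (hmixa n _ _ hx hy).1
    · rw [hσ1 ⟨x, hx⟩, hσ1 ⟨y, hy⟩]
      exact h2 n ⟨x, hx⟩ ⟨y, hy⟩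
  · intro n x
    by_cases hx : Bg β Y m x
    · rw [hσ2 x hx]
    · rw [hσ1 ⟨x, hx⟩]
      exact h3 n ⟨x, hx⟩

end Pool.Agent.Y574.TF
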